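import Mathlib
import Pool.Agent.H.MP_90e10c_an.C

set_option autoImplicit false
open MeasureTheory

namespace Pool.Agent.Results.MP_90e10c_an.No

def Spectral (μ : Measure ℝ) (Λ : Set ℝ) : Prop :=
  ∃ v : Λ → Lp ℂ 2 μ,
    (∀ l : Λ, v l =ᵐ[μ] fun x : ℝ => Complex.exp (-2 * Real.pi * Complex.I * (l : ℝ) * x)) ∧
    Orthonormal ℂ v ∧ (Submodule.span ℂ (Set.range v)).topologicalClosure = ⊤

open Pool.Agent.H.MP_90e10c_an in
theorem result : ∃ (μ : Measure ℝ) (Λ : Set ℝ), IsProbabilityMeasure μ ∧ IsCompact μ.support ∧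
    μ ⟂ₘ volume ∧ (∀ x : ℝ, μ {x} = 0) ∧ Λ.Countable ∧ Spectral μ Λ ∧
    (∀ t : ℝ, Spectral μ ((fun l => t * l) '' Λ) → t = 1 ∨ t = -1) ∧
    {t : ℝ | Spectral μ ((fun l => t * l) '' Λ)}.Finite := by
  have key : ∀ t : ℝ, Spectral mu ((fun l => t * l) '' La) → t = 1 ∨ t = -1 := by
    rintro t ⟨v, h1, h2, h3⟩
    have : v = fun l : ((fun l => t * l) '' La : Set ℝ) => Q (eb l) :=
      funext fun l => Lp.ext ((h1 l).trans (e_ae l).symm)
    subst this
    exact only h2 h3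
  refine ⟨mu, La, inferInstance, supp, sing, noat, La_count,
    ⟨_, fun l => e_ae l, e_on, e_dense⟩, key, ?_⟩
  exact (Set.toFinite {(1 : ℝ), -1}).subset key

end Pool.Agent.Results.MP_90e10c_an.No
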